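import Pool.Agent.K7.H79.TR.Approx

/-!
# Approximate exponents of the extreme tracial states of `C*(ℤ² ⋉ ℤ[1/6])`

Let `G` be the group generated by `x ↦ 2 x`, `x ↦ 3 x`, `x ↦ x + 1` on `ℚ`.  For a tracial state
`φ` and a translation `g` all `m = 2 ^ i 3 ^ j` are exponents: `φ (g ^ m) = φ (g)`.  It is shown that
for an extreme tracial state which is not conditionally finite-dimensional the approximate exponents,
even for the powers of a SINGLE translation `g` with `φ (g) ≠ 0` and up to any error `ε < |φ (g)| / 2`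
which does not tend to zero, do not contain all the sums of the subfamilies of a large finite family
of integers.
-/

set_option autoImplicit false

open MeasureTheory Filter Topology Finset
open scoped ComplexOrder

namespace Pool.Agent.Results.MP_81910f_an.ApproximateExponents

open Pool.Agent.W763.Tr Pool.Agent.TH654.FC
open Pool.Agent.TH463.UQ (finite_or_atomless)
open Pool.Agent.Results.MP_96e181_an.FiniteSums (hc lim0)
open Pool.Agent.R481.TraceFS (zpow_apply)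
open Pool.Agent.K7.H79.TR

section

variable {G : Subgroup (Equiv.Perm ℚ)} {τ : ℤ → G} {φ : G → ℂ} {S6 : G} {μ : Measure UnitAddCircle}

/-- the values on the powers of a translation -/
lemma val (D : Data G τ φ S6 μ) {g : G} (hg1 : g ≠ 1)
    (hg : ∃ r : ℚ, ∀ x : ℚ, (g : Equiv.Perm ℚ) x = x + r) :
    ∃ n : ℤ, n ≠ 0 ∧ ∀ m : ℤ, φ (g ^ m) = ∫ x, (fourier (n * m) x : ℂ) ∂μ := by
  obtain ⟨r, hg⟩ := hg
  obtain ⟨n, k, hr⟩ := D.six hg
  refine ⟨n, ?_, fun m => ?_⟩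
  · rintro rfl
    apply hg1
    apply Subtype.ext
    apply Equiv.ext
    intro x
    rw [hg, hr]
    simp
  · rw [D.hμ]
    refine phi_trans D.hτ D.hcl S6 D.hS6 _ _ k fun z => ?_
    rw [zpow_apply hg, hr]
    push_cast; ring

/-- the quantitative statement -/
lemma quant (D : Data G τ φ S6 μ) (hat : ∀ x, μ {x} = 0) {g : G} (hg1 : g ≠ 1)
    (hg : ∃ r : ℚ, ∀ x : ℚ, (g : Equiv.Perm ℚ) x = x + r) {ε : ℝ} (hε : 2 * ε < ‖φ g‖) :
    ∃ k : ℕ, 1 ≤ k ∧ ∀ ψ : G → ℂ, ψ 1 = 1 → PD ψ → ∀ a : Fin (2 * k) → ℤ,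
      ∃ F : Finset (Fin (2 * k)), F.Nonempty ∧ ∃ j : ℕ, 1 ≤ j ∧ j ≤ k ∧
        ε < ‖ψ (g ^ ((∑ i ∈ F, a i) * j)) - φ (g ^ j)‖ := by
  have := D.prob
  obtain ⟨n, hn0, hn⟩ := val D hg1 hg
  have h1 := (lim0 μ hat hn0).comp (tendsto_id.const_mul_atTop' (show 0 < 2 by norm_num) :
    Tendsto (fun k : ℕ => 2 * k) atTop atTop)
  have h2 := (h1.eventually (gt_mem_nhds (show 0 < ‖φ g‖ - 2 * ε by linarith))).and
    (eventually_ge_atTop 1)
  obtain ⟨k, hk, hk1⟩ := h2.exists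
  refine ⟨k, hk1, fun ψ hψ1 hψ a => ?_⟩
  by_contra hcon
  push Not at hcon
  have h3 := approx_ineq D.hpd D.h1 hψ hψ1 g (L := k) hk1 a (ε := ε)
    (fun F hF j hj1 hj2 => hcon F hF j hj1 hj2)
  have h4 := int_hc D.hμ n k
  have h5 : (∑ i ∈ range (2 * k + 1), ((2 * k).choose i : ℂ) * φ (τ (n * ((i : ℤ) - k)))) =
      ∑ i ∈ range (2 * k + 1), ((2 * k).choose i : ℂ) * φ (g ^ ((i : ℤ) - k)) := by
    refine sum_congr rfl fun i _ => ?_
    rw [hn, D.hμ]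
  rw [h5] at h4
  rw [← h4] at h3
  have h6 : (‖φ g‖ : ℂ) ≤ ((2 / 4 ^ k + 2 * ε + ∫ x, hc n x ^ (2 * k) ∂μ : ℝ) : ℂ) := by
    refine h3.trans (le_of_eq ?_)
    push_cast
    ring
  have h7 : ‖φ g‖ ≤ 2 / 4 ^ k + 2 * ε + ∫ x, hc n x ^ (2 * k) ∂μ := by exact_mod_cast h6
  have e4 : (2 : ℝ) ^ (2 * k) = 4 ^ k := by rw [pow_mul]; norm_num
  simp only [Function.comp_apply] at hk
  rw [e4] at hk
  linarith

end

/-- **Approximate exponents.**  Let `T` be the set of the tracial states of `C*(G)`.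
(1) Let `φ, ψ ∈ T` (extreme or not), `g ∈ G` any element, `k ≥ 1`, and let `a_1, ..., a_{2k}` be
integers such that `|ψ (g ^ (m j)) - φ (g ^ j)| ≤ ε` for all `1 ≤ j ≤ k` and all sums `m` of nonempty
subfamilies. Then `|φ (g)| ≤ 2 / 4 ^ k + 2 ε + 4 ^ (-k) ∑_{|j| ≤ k} (2k choose k + j) φ (g ^ j)`.
(2) Let `φ` be an extreme tracial state which is not conditionally finite-dimensional, `g ≠ 1` a
translation and `ε < |φ (g)| / 2`. Then there is `k` such that for ALL tracial states `ψ` (for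
instance `ψ = φ`) and ALL integers `a_1, ..., a_{2k}` some nonempty subfamily has a sum `m` with
`|ψ (g ^ (m j)) - φ (g ^ j)| > ε` for some `1 ≤ j ≤ k`.
(3) For such a `φ` the following are equivalent: `φ` is the regular trace; for every `K` there are
a tracial state `ψ` and integers `a_1, ..., a_K` such that `ψ (g ^ m) = φ (g)` for all translations
`g` and all sums `m` of nonempty subfamilies; for every translation `g ≠ 1`, every `ε > 0` and `k`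
there are a tracial state `ψ` and integers `a_1, ..., a_{2k}` with
`|ψ (g ^ (m j)) - φ (g ^ j)| ≤ ε` for `1 ≤ j ≤ k` and all sums `m` of nonempty subfamilies. -/
theorem result (s2 s3 t : Equiv.Perm ℚ) (hs2 : ∀ x : ℚ, s2 x = 2 * x) (hs3 : ∀ x : ℚ, s3 x = 3 * x)
    (ht : ∀ x : ℚ, t x = x + 1) (G : Subgroup (Equiv.Perm ℚ))
    (hG : G = Subgroup.closure {s2, s3, t}) (T : Set (G → ℂ))
    (hT : T = {ψ : G → ℂ | ψ 1 = 1 ∧ (∀ g h : G, ψ (h * g * h⁻¹) = ψ g) ∧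
        ∀ (s : Finset G) (c : G → ℂ), 0 ≤ ∑ i ∈ s, ∑ j ∈ s, star (c j) * c i * ψ (j⁻¹ * i)}) :
    (∀ φ ∈ T, ∀ ψ ∈ T, ∀ (g : G) (k : ℕ) (ε : ℝ), 1 ≤ k → ∀ a : Fin (2 * k) → ℤ,
      (∀ F : Finset (Fin (2 * k)), F.Nonempty → ∀ j : ℕ, 1 ≤ j → j ≤ k →
        ‖ψ (g ^ ((∑ i ∈ F, a i) * j)) - φ (g ^ j)‖ ≤ ε) →
      (‖φ g‖ : ℂ) ≤ 2 / 4 ^ k + 2 * (ε : ℂ) +
        (∑ i ∈ range (2 * k + 1), ((2 * k).choose i : ℂ) * φ (g ^ ((i : ℤ) - k))) / 4 ^ k) ∧
    (∀ φ ∈ Set.extremePoints ℝ T,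
      ¬ FiniteDimensional ℂ (Submodule.span ℂ {F : G → ℂ | ∃ n : G,
          (∃ r : ℚ, ∀ x : ℚ, (n : Equiv.Perm ℚ) x = x + r) ∧ F = fun x => φ (n * x)}) →
      (∀ g : G, g ≠ 1 → (∃ r : ℚ, ∀ x : ℚ, (g : Equiv.Perm ℚ) x = x + r) →
        ∀ ε : ℝ, ε < ‖φ g‖ / 2 → ∃ k : ℕ, 1 ≤ k ∧ ∀ ψ ∈ T, ∀ a : Fin (2 * k) → ℤ,
          ∃ F : Finset (Fin (2 * k)), F.Nonempty ∧ ∃ j : ℕ, 1 ≤ j ∧ j ≤ k ∧
            ε < ‖ψ (g ^ ((∑ i ∈ F, a i) * j)) - φ (g ^ j)‖) ∧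
      List.TFAE [
        φ = Set.indicator ({1} : Set G) (fun _ => (1 : ℂ)),
        ∀ K : ℕ, ∃ ψ ∈ T, ∃ a : Fin K → ℤ, ∀ F : Finset (Fin K), F.Nonempty → ∀ g : G,
          (∃ r : ℚ, ∀ x : ℚ, (g : Equiv.Perm ℚ) x = x + r) → ψ (g ^ (∑ i ∈ F, a i)) = φ g,
        ∀ g : G, g ≠ 1 → (∃ r : ℚ, ∀ x : ℚ, (g : Equiv.Perm ℚ) x = x + r) →
          ∀ ε : ℝ, 0 < ε → ∀ k : ℕ, 1 ≤ k → ∃ ψ ∈ T, ∃ a : Fin (2 * k) → ℤ,
            ∀ F : Finset (Fin (2 * k)), F.Nonempty → ∀ j : ℕ, 1 ≤ j → j ≤ k →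
              ‖ψ (g ^ ((∑ i ∈ F, a i) * j)) - φ (g ^ j)‖ ≤ ε]) := by
  subst hT
  constructor
  · rintro φ ⟨hφ1, -, hφ⟩ ψ ⟨hψ1, -, hψ⟩ g k ε hk a h
    exact approx_ineq hφ hφ1 hψ hψ1 g hk a h
  · intro φ hext hfd
    obtain ⟨hφ1, hcl, hpd⟩ := hext.1
    obtain ⟨τ, S6, μ, D⟩ := data_of hs2 hs3 ht hG hφ1 hcl hpd
    have := D.prob
    have hat : ∀ x, μ {x} = 0 := by
      rcases finite_or_atomless D hext with h | h
      · exact absurd h hfd
      · exact h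
    have hq : ∀ g : G, g ≠ 1 → (∃ r : ℚ, ∀ x : ℚ, (g : Equiv.Perm ℚ) x = x + r) →
        ∀ ε : ℝ, ε < ‖φ g‖ / 2 → ∃ k : ℕ, 1 ≤ k ∧ ∀ ψ ∈ {ψ : G → ℂ | ψ 1 = 1 ∧
          (∀ g h : G, ψ (h * g * h⁻¹) = ψ g) ∧
          ∀ (s : Finset G) (c : G → ℂ), 0 ≤ ∑ i ∈ s, ∑ j ∈ s, star (c j) * c i * ψ (j⁻¹ * i)},
          ∀ a : Fin (2 * k) → ℤ,
          ∃ F : Finset (Fin (2 * k)), F.Nonempty ∧ ∃ j : ℕ, 1 ≤ j ∧ j ≤ k ∧
            ε < ‖ψ (g ^ ((∑ i ∈ F, a i) * j)) - φ (g ^ j)‖ := by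
      intro g hg1 hg ε hε
      obtain ⟨k, hk, h⟩ := quant D hat hg1 hg (ε := ε) (by linarith)
      exact ⟨k, hk, fun ψ hψ a => h ψ hψ.1 hψ.2.2 a⟩
    refine ⟨hq, ?_⟩
    tfae_have 1 → 2 := by
      intro h K
      refine ⟨φ, hext.1, fun _ => 1, fun F hF g hg => ?_⟩
      by_cases hg1 : g = 1
      · rw [hg1, one_zpow]
      · have e1 : φ g = 0 := by
          rw [h]
          exact Set.indicator_of_notMem (by simpa using hg1) _
        have e2 : φ (g ^ (∑ i ∈ F, (1 : ℤ))) = 0 := by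
          rw [h]
          refine Set.indicator_of_notMem ?_ _
          rw [Set.mem_singleton_iff]
          intro h0
          obtain ⟨r, hr⟩ := hg
          have h2 := zpow_apply hr (∑ i ∈ F, (1 : ℤ)) 0
          rw [h0] at h2
          have h3 : (0 : ℚ) = 0 + ((∑ i ∈ F, (1 : ℤ) : ℤ) : ℚ) * r := h2
          rw [zero_add, Finset.sum_const, nsmul_eq_mul, mul_one] at h3
          have h4 : r ≠ 0 := by
            rintro rfl
            apply hg1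
            apply Subtype.ext
            apply Equiv.ext
            intro x
            rw [hr]
            simp
          have h5 : ((F.card : ℤ) : ℚ) ≠ 0 := by
            have := Finset.card_pos.2 hF
            exact_mod_cast this.ne'
          exact mul_ne_zero h5 h4 h3.symm
        rw [e1, e2]
    tfae_have 2 → 3 := by
      intro h g hg1 hg ε hε k hk
      obtain ⟨ψ, hψ, a, ha⟩ := h (2 * k)
      refine ⟨ψ, hψ, a, fun F hF j hj1 hj2 => ?_⟩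
      obtain ⟨r, hr⟩ := hg
      have h1 := ha F hF (g ^ j) ⟨(j : ℤ) * r, fun x => by
        have := zpow_apply hr (j : ℤ) x
        rwa [zpow_natCast] at this⟩
      have e : (g ^ j) ^ (∑ i ∈ F, a i) = g ^ ((∑ i ∈ F, a i) * j) := by
        rw [← zpow_natCast, ← zpow_mul, mul_comm]
      rw [e] at h1
      rw [h1, sub_self, norm_zero]
      exact hε.le
    tfae_have 3 → 1 := by
      intro h
      have hz : ∀ n : ℤ, n ≠ 0 → φ (τ n) = 0 := by
        intro n hn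
        by_contra hne
        have hne1 : τ n ≠ 1 := by
          intro h0
          have h2 := D.hτ n 0
          rw [h0] at h2
          have h3 : (0 : ℚ) = 0 + (n : ℚ) := h2
          rw [zero_add] at h3
          exact hn (by exact_mod_cast h3.symm)
        have htr : ∃ r : ℚ, ∀ x : ℚ, ((τ n : G) : Equiv.Perm ℚ) x = x + r := ⟨n, D.hτ n⟩
        have hpos : 0 < ‖φ (τ n)‖ := norm_pos_iff.2 hne
        obtain ⟨k, hk, h5⟩ := hq (τ n) hne1 htr (‖φ (τ n)‖ / 4) (by linarith)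
        obtain ⟨ψ, hψ, a, ha⟩ := h (τ n) hne1 htr (‖φ (τ n)‖ / 4) (by linarith) k hk
        obtain ⟨F, hF, j, hj1, hj2, h6⟩ := h5 ψ hψ a
        exact absurd (ha F hF j hj1 hj2) (not_le.2 h6)
      funext g
      by_cases hg : g = 1
      · rw [hg, D.h1]
        simp
      · rw [eq_regular D.hτ D.h1 D.hcl D.hpd S6 D.hS6 D.hform hz g hg]
        simp [hg]
    tfae_finish

end Pool.Agent.Results.MP_81910f_an.ApproximateExponents
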