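import Pool.Agent.R481.TraceFS
import Pool.Agent.Results.MP_e27144_an.ManyLargeCoefficients

/-!
# Counting the large values of the tracial states of `C*(ℤ² ⋉ ℤ[1/6])`

Let `G` be the group generated by `x ↦ 2 x`, `x ↦ 3 x`, `x ↦ x + 1` on `ℚ`.  If finitely many tracial
states do not vanish at given translations `g_i` then their values at the powers `g_i ^ n` are
simultaneously bounded below by one constant for at least `c (log X) ^ (4 k)` of the `n ≤ X`, for
every `k` and large `X`, uniformly in the tracial states and translations.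
-/

set_option autoImplicit false

open MeasureTheory Filter Topology Finset
open scoped ComplexOrder

namespace Pool.Agent.Results.MP_81910f_an.ManyLargeValues

open Pool.Agent.W763.Tr Pool.Agent.TH654.FC
open Pool.Agent.R481.TraceFS (zpow_apply)

/-- the measure of the powers of a translation -/
lemma meas {s2 s3 t : Equiv.Perm ℚ} (hs2 : ∀ x, s2 x = 2 * x) (hs3 : ∀ x, s3 x = 3 * x)
    (ht : ∀ x, t x = x + 1) {G : Subgroup (Equiv.Perm ℚ)} (hG : G = Subgroup.closure {s2, s3, t})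
    {φ : G → ℂ} (h1 : φ 1 = 1) (hcl : ∀ g h : G, φ (h * g * h⁻¹) = φ g) (hpd : PD φ) {g : G}
    (hg : ∃ r : ℚ, ∀ x : ℚ, (g : Equiv.Perm ℚ) x = x + r) :
    ∃ ν : Measure UnitAddCircle, IsProbabilityMeasure ν ∧
      (∀ n : ℤ, ∫ x, (fourier n x : ℂ) ∂ν = φ (g ^ n)) ∧
      (∀ n : ℤ, φ (g ^ (n * (2 : ℕ))) = φ (g ^ n)) ∧ ∀ n : ℤ, φ (g ^ (n * (3 : ℕ))) = φ (g ^ n) := by
  obtain ⟨τ, S6, μ, D⟩ := data_of hs2 hs3 ht hG h1 hcl hpd
  have := D.prob
  obtain ⟨r, hg⟩ := hg
  obtain ⟨m, k, hr⟩ := D.six hg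
  have hv : ∀ n : ℤ, φ (g ^ n) = φ (τ (m * n)) := by
    intro n
    refine phi_trans D.hτ D.hcl S6 D.hS6 _ _ k fun z => ?_
    rw [zpow_apply hg, hr]
    push_cast; ring
  refine ⟨μ.map (fun x : UnitAddCircle => m • x),
    Measure.isProbabilityMeasure_map (continuous_zsmul m).measurable.aemeasurable, fun n => ?_,
    fun n => ?_, fun n => ?_⟩
  · rw [integral_map (continuous_zsmul m).measurable.aemeasurable
      (fourier n).continuous.aestronglyMeasurable, hv, ← D.hμ]
    refine integral_congr_ae (Eventually.of_forall fun x => ?_)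
    simp only
    rw [fourier_apply, fourier_apply, smul_smul, mul_comm]
  · rw [hv, hv, ← D.h2 (m * n)]
    congr 2
    push_cast; ring
  · rw [hv, hv, ← D.h3 (m * n)]
    congr 2
    push_cast; ring

/-- the convolution -/
lemma conv {r : ℕ} {c : Fin r → ℤ → ℂ} (h : ∀ i, ∃ ν : Measure UnitAddCircle,
      IsProbabilityMeasure ν ∧ ∀ n : ℤ, ∫ x, (fourier n x : ℂ) ∂ν = c i n) :
    ∃ μ : Measure UnitAddCircle, IsProbabilityMeasure μ ∧
      ∀ n : ℤ, ∫ x, (fourier n x : ℂ) ∂μ = ∏ i, c i n := by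
  choose ν hν hc using h
  have hm : Measurable fun x : Fin r → UnitAddCircle => ∑ i, x i := by fun_prop
  refine ⟨(Measure.pi ν).map (fun x => ∑ i, x i),
    Measure.isProbabilityMeasure_map hm.aemeasurable, fun n => ?_⟩
  rw [integral_map hm.aemeasurable (fourier n).continuous.aestronglyMeasurable]
  have h1 : ∀ x : Fin r → UnitAddCircle, (fourier n (∑ i, x i) : ℂ) = ∏ i, (fourier n (x i) : ℂ) := by
    intro x
    have : ∀ s : Finset (Fin r), (fourier n (∑ i ∈ s, x i) : ℂ) = ∏ i ∈ s, (fourier n (x i) : ℂ) := by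
      intro s
      classical
      induction s using Finset.induction_on with
      | empty => simp
      | insert a s ha ih =>
        rw [Finset.sum_insert ha, Finset.prod_insert ha, ← ih, fourier_apply, fourier_apply,
          fourier_apply, smul_add, AddCircle.toCircle_add, Circle.coe_mul]
    exact this _
  simp_rw [h1]
  rw [integral_fintype_prod_eq_prod (fun (_ : Fin r) (x : UnitAddCircle) => (fourier n x : ℂ))]
  exact Finset.prod_congr rfl fun i _ => hc i n

/-- **Counting the large values of the tracial states of `C*(G)`.**  Let `T` be the set of the tracial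
states of `C*(G)`.
(1) For all `k ≥ 1`, `α > 0` and `0 < θ < 1` there are `c > 0` and `X₀` such that for all `r`, all
tracial states `φ_1, ..., φ_r` (extreme or not), all translations `g_1, ..., g_r` with
`∏ |φ_i (g_i)| ≥ α` and all `X ≥ X₀` at least `c (log X) ^ (4 k)` of the integers `1 ≤ n ≤ X` satisfy
`∏ |φ_i (g_i ^ n)| ≥ θ α ^ (2 k)`; in particular `|φ_i (g_i ^ n)| ≥ θ α ^ (2 k)` for all `i` for these
`n`.
(2) A tracial state `φ` is the regular trace if and only if for every translation `g ≠ 1` there is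
an exponent `C` such that for every `δ > 0` the number of the `n ≤ X` with `|φ (g ^ n)| ≥ δ` is
`O ((log X) ^ C)`. -/
theorem result (s2 s3 t : Equiv.Perm ℚ) (hs2 : ∀ x : ℚ, s2 x = 2 * x) (hs3 : ∀ x : ℚ, s3 x = 3 * x)
    (ht : ∀ x : ℚ, t x = x + 1) (G : Subgroup (Equiv.Perm ℚ))
    (hG : G = Subgroup.closure {s2, s3, t}) (T : Set (G → ℂ))
    (hT : T = {ψ : G → ℂ | ψ 1 = 1 ∧ (∀ g h : G, ψ (h * g * h⁻¹) = ψ g) ∧
        ∀ (s : Finset G) (c : G → ℂ), 0 ≤ ∑ i ∈ s, ∑ j ∈ s, star (c j) * c i * ψ (j⁻¹ * i)}) :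
    (∀ k : ℕ, 1 ≤ k → ∀ α θ : ℝ, 0 < α → 0 < θ → θ < 1 →
      ∃ c X₀ : ℝ, 0 < c ∧ 1 < X₀ ∧ ∀ (r : ℕ) (φ : Fin r → G → ℂ) (g : Fin r → G),
        (∀ i, φ i ∈ T) → (∀ i, ∃ q : ℚ, ∀ x : ℚ, (g i : Equiv.Perm ℚ) x = x + q) →
        α ≤ ∏ i, ‖φ i (g i)‖ → ∀ X : ℝ, X₀ ≤ X →
          c * Real.log X ^ (4 * k) ≤ Nat.card {n : ℕ | 1 ≤ n ∧ (n : ℝ) ≤ X ∧
            θ * α ^ (2 * k) ≤ ∏ i, ‖φ i (g i ^ n)‖ ∧
            ∀ i, θ * α ^ (2 * k) ≤ ‖φ i (g i ^ n)‖}) ∧
    (∀ φ ∈ T, (φ = Set.indicator ({1} : Set G) (fun _ => (1 : ℂ)) ↔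
      ∀ g : G, g ≠ 1 → (∃ q : ℚ, ∀ x : ℚ, (g : Equiv.Perm ℚ) x = x + q) → ∃ C : ℕ, ∀ δ : ℝ, 0 < δ →
        ∃ B : ℝ, ∀ X : ℝ, 2 ≤ X →
          (Nat.card {n : ℕ | 1 ≤ n ∧ (n : ℝ) ≤ X ∧ δ ≤ ‖φ (g ^ n)‖} : ℝ) ≤
            B * Real.log X ^ C)) := by
  subst hT
  constructor
  · intro k hk α θ hα hθ0 hθ1
    obtain ⟨c, X₀, hc, hX₀, hmain⟩ :=
      Pool.Agent.Results.MP_e27144_an.ManyLargeCoefficients.result.1 k hk α θ hα hθ0 hθ1
    refine ⟨c, X₀, hc, hX₀, fun r φ g hφ hg hαφ X hX => ?_⟩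
    choose ν hν hv h2 h3 using fun i => meas hs2 hs3 ht hG (hφ i).1 (hφ i).2.1 (hφ i).2.2 (hg i)
    obtain ⟨μ, hμ, hμc⟩ := conv (c := fun i n => φ i (g i ^ n)) fun i => ⟨ν i, hν i, hv i⟩
    have m2 : MeasurePreserving (fun x : UnitAddCircle => 2 • x) μ μ :=
      mp_nsmul (c := fun n => ∏ i, φ i (g i ^ n)) hμc fun n =>
        Finset.prod_congr rfl fun i _ => h2 i n
    have m3 : MeasurePreserving (fun x : UnitAddCircle => 3 • x) μ μ :=
      mp_nsmul (c := fun n => ∏ i, φ i (g i ^ n)) hμc fun n =>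
        Finset.prod_congr rfl fun i _ => h3 i n
    have h4 := hmain μ hμ m2 m3 1 one_ne_zero (by
      rw [hμc, norm_prod]
      simpa using hαφ) X hX
    refine h4.trans ?_
    have hle1 : ∀ i (n : ℕ), ‖φ i (g i ^ n)‖ ≤ 1 := by
      intro i n
      have := hν i
      have h5 := hv i n
      rw [zpow_natCast] at h5
      rw [← h5]
      have h6 := norm_integral_le_of_norm_le_const (μ := ν i)
        (f := fun x => (fourier (n : ℤ) x : ℂ)) (C := 1) (Eventually.of_forall fun x => by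
          rw [fourier_apply]; exact (Circle.norm_coe _).le)
      rw [probReal_univ, mul_one] at h6
      exact h6
    have hfin : {n : ℕ | 1 ≤ n ∧ (n : ℝ) ≤ X ∧ θ * α ^ (2 * k) ≤ ∏ i, ‖φ i (g i ^ n)‖ ∧
        ∀ i, θ * α ^ (2 * k) ≤ ‖φ i (g i ^ n)‖}.Finite := by
      refine (Set.finite_Iic ⌊X⌋₊).subset fun n hn => ?_
      exact Nat.le_floor hn.2.1
    have hsub : {n : ℕ | 1 ≤ n ∧ (n : ℝ) ≤ |((1 : ℤ) : ℝ)| * X ∧
        θ * α ^ (2 * k) ≤ ‖∫ x, (fourier (n : ℤ) x : ℂ) ∂μ‖} ⊆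
        {n : ℕ | 1 ≤ n ∧ (n : ℝ) ≤ X ∧ θ * α ^ (2 * k) ≤ ∏ i, ‖φ i (g i ^ n)‖ ∧
          ∀ i, θ * α ^ (2 * k) ≤ ‖φ i (g i ^ n)‖} := by
      rintro n ⟨hn1, hn2, hn3⟩
      rw [Int.cast_one, abs_one, one_mul] at hn2
      rw [hμc, norm_prod] at hn3
      simp only [zpow_natCast] at hn3
      refine ⟨hn1, hn2, hn3, fun i => hn3.trans ?_⟩
      calc ∏ j, ‖φ j (g j ^ n)‖ ≤ ∏ j, if j = i then ‖φ i (g i ^ n)‖ else 1 := by
            refine Finset.prod_le_prod (fun j _ => norm_nonneg _) fun j _ => ?_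
            split_ifs with hj
            · rw [hj]
            · exact hle1 j n
        _ = ‖φ i (g i ^ n)‖ := by
            rw [Finset.prod_ite_eq' Finset.univ i (fun _ => ‖φ i (g i ^ n)‖)]
            simp
    have := Set.ncard_le_ncard hsub hfin
    exact_mod_cast this
  · intro φ hφ
    constructor
    · intro h g hg1 hg
      refine ⟨0, fun δ hδ => ⟨0, fun X _ => ?_⟩⟩
      have : {n : ℕ | 1 ≤ n ∧ (n : ℝ) ≤ X ∧ δ ≤ ‖φ (g ^ n)‖} = ∅ := by
        ext n
        simp only [Set.mem_ofPred_eq, Set.mem_empty_iff_false, iff_false]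
        rintro ⟨hn, _, hd⟩
        have hne : g ^ n ≠ 1 := by
          intro h0
          obtain ⟨q, hq⟩ := hg
          have h2 := zpow_apply hq (n : ℤ) 0
          rw [zpow_natCast, h0] at h2
          have h3 : (0 : ℚ) = 0 + ((n : ℤ) : ℚ) * q := h2
          have hq0 : q ≠ 0 := by
            rintro rfl
            apply hg1
            apply Subtype.ext
            apply Equiv.ext
            intro x
            rw [hq]
            simp
          rw [zero_add] at h3
          have hn0 : ((n : ℤ) : ℚ) ≠ 0 := by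
            have : n ≠ 0 := by omega
            exact_mod_cast this
          exact mul_ne_zero hn0 hq0 h3.symm
        have hz : φ (g ^ n) = 0 := by
          rw [h]
          exact Set.indicator_of_notMem (by simpa using hne) _
        rw [hz, norm_zero] at hd
        linarith
      rw [this]
      simp
    · intro h
      obtain ⟨hφ1, hcl, hpd⟩ := hφ
      obtain ⟨τ, S6, μ, D⟩ := data_of hs2 hs3 ht hG hφ1 hcl hpd
      have hz : ∀ n : ℤ, n ≠ 0 → φ (τ n) = 0 := by
        intro n hn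
        have hne1 : τ n ≠ 1 := by
          intro h0
          have h2 := D.hτ n 0
          rw [h0] at h2
          have h3 : (0 : ℚ) = 0 + (n : ℚ) := h2
          rw [zero_add] at h3
          exact hn (by exact_mod_cast h3.symm)
        have htr : ∃ r : ℚ, ∀ x : ℚ, ((τ n : G) : Equiv.Perm ℚ) x = x + r := ⟨n, D.hτ n⟩
        obtain ⟨ν, hν, hv, h2, h3⟩ := meas hs2 hs3 ht hG hφ1 hcl hpd htr
        have hvol := (Pool.Agent.Results.MP_e27144_an.ManyLargeCoefficients.result.2 ν hν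
          (mp_nsmul (c := fun m => φ (τ n ^ m)) hv h2)
          (mp_nsmul (c := fun m => φ (τ n ^ m)) hv h3)).2 (by
            obtain ⟨C, hC⟩ := h (τ n) hne1 htr
            refine ⟨C, fun δ hδ => ?_⟩
            obtain ⟨B, hB⟩ := hC δ hδ
            refine ⟨B, fun X hX => ?_⟩
            have := hB X hX
            simp only [hv, zpow_natCast]
            exact this)
        have h4 := hv 1
        rw [zpow_one, hvol] at h4
        rw [← h4]
        exact Pool.Agent.Results.MP_e27144_an.ManyLargeCoefficients.coeff_volume one_ne_zero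
      funext g
      by_cases hg : g = 1
      · rw [hg, D.h1]
        simp
      · rw [eq_regular D.hτ D.h1 D.hcl D.hpd S6 D.hS6 D.hform hz g hg]
        simp [hg]

end Pool.Agent.Results.MP_81910f_an.ManyLargeValues
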