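import Pool.Agent.K7.H79.TR.Disj
import Pool.Agent.Results.MP_81910f_an.ManyLargeValues

/-!
# Rotated spectral measures of the tracial states of `C*(ℤ² ⋉ ℤ[1/6])`

Let `G` be the group generated by `x ↦ 2 x`, `x ↦ 3 x`, `x ↦ x + 1` on `ℚ`.  For an extreme tracial
state `φ`, not the regular one, a translation `g ≠ 1` and a number `z` of modulus one which is not a
root of unity, the spectral measure of `g` in `φ` is singular to the rotation by `z` of the spectral
measure of any translation in any tracial state.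
-/

set_option autoImplicit false

open MeasureTheory Filter Topology Finset
open scoped ComplexOrder ENNReal NNReal

namespace Pool.Agent.Results.MP_81910f_an.RotatedSpectra

open Pool.Agent.W763.Tr Pool.Agent.TH654.FC
open Pool.Agent.R481.TraceFS (zpow_apply)
open Pool.Agent.Results.MP_81910f_an.ManyLargeValues (meas)
open Pool.Agent.K7.H79.TR

/-- The spectral measure of `g` in `φ` and the rotation by `z` of the spectral measure of `h` in `ψ`
have a common part of mass at least `c`: some positive definite sequence `κ` with `κ 0 ≥ c` is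
dominated by the sequences `φ (g ^ n)` and `z ^ n ψ (h ^ n)`. -/
def Common {G : Type*} [Group G] (c : ℝ) (φ : G → ℂ) (g : G) (ψ : G → ℂ) (h : G) (z : ℂ) : Prop :=
  ∃ κ : ℤ → ℂ, PosDef κ ∧ PosDef (fun n => φ (g ^ n) - κ n) ∧
    PosDef (fun n => z ^ n * ψ (h ^ n) - κ n) ∧ c ≤ (κ 0).re

/-- translations -/
def Trans {G : Subgroup (Equiv.Perm ℚ)} (g : G) : Prop :=
  ∃ q : ℚ, ∀ x : ℚ, (g : Equiv.Perm ℚ) x = x + q

/-- the tracial states -/
def TSt (G : Subgroup (Equiv.Perm ℚ)) : Set (G → ℂ) :=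
  {ψ : G → ℂ | ψ 1 = 1 ∧ (∀ g h : G, ψ (h * g * h⁻¹) = ψ g) ∧
    ∀ (s : Finset G) (c : G → ℂ), 0 ≤ ∑ i ∈ s, ∑ j ∈ s, star (c j) * c i * ψ (j⁻¹ * i)}

lemma exists_theta {z : ℂ} (hz : ‖z‖ = 1) : ∃ θ : UnitAddCircle, ∀ n : ℤ, (fourier n θ : ℂ) = z ^ n := by
  obtain ⟨w, hw⟩ : ∃ w : Circle, (w : ℂ) = z := ⟨⟨z, mem_sphere_zero_iff_norm.2 hz⟩, rfl⟩
  obtain ⟨θ, hθ⟩ := (AddCircle.homeomorphCircle (T := 1) one_ne_zero).surjective w
  rw [AddCircle.homeomorphCircle_apply] at hθ
  refine ⟨θ, fun n => ?_⟩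
  rw [fourier_apply, AddCircle.toCircle_zsmul, hθ, ← hw, Circle.coe_zpow]

lemma fourier_pow' (n : ℤ) (θ : UnitAddCircle) : (fourier n θ : ℂ) = (fourier 1 θ : ℂ) ^ n := by
  rw [fourier_apply, AddCircle.toCircle_zsmul, fourier_apply, one_smul]
  simp

lemma norm_one' (θ : UnitAddCircle) : ‖(fourier 1 θ : ℂ)‖ = 1 := by
  rw [fourier_apply]
  exact Circle.norm_coe _

lemma circle_infinite : {z : ℂ | ‖z‖ = 1}.Infinite := by
  have h0 : ¬ IsOfFinAddOrder ((Real.sqrt 2 : ℝ) : UnitAddCircle) :=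
    Pool.Agent.H847R3.XpXq.not_fin irrational_sqrt_two
  refine Set.infinite_of_injective_forall_mem
    (f := fun n : ℕ => (fourier 1 (n • ((Real.sqrt 2 : ℝ) : UnitAddCircle)) : ℂ)) ?_
    (fun n => norm_one' _)
  intro a b hab
  simp only [fourier_apply, one_smul] at hab
  have h1 := AddCircle.injective_toCircle (T := 1) one_ne_zero (Subtype.ext hab)
  exact (injective_nsmul_iff_not_isOfFinAddOrder.2 h0) h1

lemma not_root : ∀ n : ℕ, 1 ≤ n → (fourier 1 ((Real.sqrt 2 : ℝ) : UnitAddCircle) : ℂ) ^ n ≠ 1 := by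
  intro n hn h
  have h0 : ¬ IsOfFinAddOrder ((Real.sqrt 2 : ℝ) : UnitAddCircle) :=
    Pool.Agent.H847R3.XpXq.not_fin irrational_sqrt_two
  apply h0
  rw [isOfFinAddOrder_iff_nsmul_eq_zero]
  refine ⟨n, hn, ?_⟩
  apply AddCircle.injective_toCircle (T := 1) one_ne_zero
  rw [AddCircle.toCircle_nsmul, AddCircle.toCircle_zero]
  apply Subtype.ext
  rw [fourier_apply, one_smul] at h
  simpa using h

lemma not_fin_of_not_root {z : ℂ} (hz : ∀ n : ℕ, 1 ≤ n → z ^ n ≠ 1) {θ : UnitAddCircle}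
    (hθ : ∀ n : ℤ, (fourier n θ : ℂ) = z ^ n) : ¬ IsOfFinAddOrder θ := by
  rw [isOfFinAddOrder_iff_nsmul_eq_zero]
  rintro ⟨n, hn, h⟩
  apply hz n hn
  rw [← zpow_natCast, ← hθ, fourier_apply, natCast_zsmul, h, AddCircle.toCircle_zero]
  rfl

section

variable {s2 s3 t : Equiv.Perm ℚ} (hs2 : ∀ x, s2 x = 2 * x) (hs3 : ∀ x, s3 x = 3 * x)
    (ht : ∀ x, t x = x + 1) {G : Subgroup (Equiv.Perm ℚ)} (hG : G = Subgroup.closure {s2, s3, t})

include hs2 hs3 ht hG

/-- a Lebesgue part of the spectral measure of a translation -/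
lemma regular_of_le {φ : G → ℂ} (hext : φ ∈ Set.extremePoints ℝ (TSt G)) {g : G} (hg1 : g ≠ 1)
    (hg : Trans g) {ν : Measure UnitAddCircle} [IsProbabilityMeasure ν]
    (hν : ∀ n : ℤ, ∫ x, (fourier n x : ℂ) ∂ν = φ (g ^ n)) {c : ℝ≥0} (hc : 0 < c)
    (h : (c : ℝ≥0∞) • (volume : Measure UnitAddCircle) ≤ ν) :
    φ = Set.indicator ({1} : Set G) (fun _ => (1 : ℂ)) := by
  obtain ⟨h1, hcl, hpd⟩ := hext.1
  obtain ⟨τ, S6, μ, D⟩ := data_of hs2 hs3 ht hG h1 hcl hpd
  have := D.prob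
  obtain ⟨r, hr⟩ := hg
  obtain ⟨m, k, hmk⟩ := D.six hr
  have hm0 : m ≠ 0 := by
    rintro rfl
    apply hg1
    apply Subtype.ext
    apply Equiv.ext
    intro x
    rw [hr, hmk]
    simp
  have hv : ∀ n : ℤ, φ (g ^ n) = φ (τ (m * n)) := by
    intro n
    refine phi_trans D.hτ D.hcl S6 D.hS6 _ _ k fun z => ?_
    rw [zpow_apply hr, hmk]
    push_cast; ring
  have hmeas : Measurable fun x : UnitAddCircle => m • x := (continuous_zsmul m).measurable
  have hp1 : IsProbabilityMeasure (μ.map (fun x : UnitAddCircle => m • x)) :=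
    Measure.isProbabilityMeasure_map hmeas.aemeasurable
  have e : ν = μ.map (fun x : UnitAddCircle => m • x) := by
    refine Pool.Agent.R202.ext_fourier fun n => ?_
    rw [integral_map hmeas.aemeasurable (fourier n).continuous.aestronglyMeasurable, hν, hv,
      ← D.hμ]
    refine integral_congr_ae (Eventually.of_forall fun x => ?_)
    simp only
    rw [fourier_apply, fourier_apply, smul_smul, mul_comm]
  rw [e] at h
  exact regular_of_part D hext hc (Pool.Agent.R477.XQ.leb_part le_rfl D.mp2 hm0 h)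

/-- the overlap in terms of measures -/
lemma ov_of_common {φ ψ : G → ℂ} (hψ : ψ ∈ TSt G) {g h : G} (hh : Trans h) {c : ℝ}
    (hc : 0 < c) {z : ℂ} {θ : UnitAddCircle} (hθ : ∀ n : ℤ, (fourier n θ : ℂ) = z ^ n)
    {ν : Measure UnitAddCircle} [IsProbabilityMeasure ν]
    (hν : ∀ n : ℤ, ∫ x, (fourier n x : ℂ) ∂ν = φ (g ^ n)) (hC : Common c φ g ψ h z) :
    ∃ ν' : Measure UnitAddCircle, IsProbabilityMeasure ν' ∧
      MeasurePreserving (fun x : UnitAddCircle => 2 • x) ν' ν' ∧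
      MeasurePreserving (fun x : UnitAddCircle => 3 • x) ν' ν' ∧
      Pool.Agent.R477.XQ.Ov c.toNNReal 1 1 ν ν' θ := by
  obtain ⟨κ, hκ, hκ1, hκ2, hκc⟩ := hC
  obtain ⟨ν', hν', hv', h2, h3⟩ := meas hs2 hs3 ht hG hψ.1 hψ.2.1 hψ.2.2 hh
  refine ⟨ν', hν', mp_nsmul (c := fun m => ψ (h ^ m)) hv' h2,
    mp_nsmul (c := fun m => ψ (h ^ m)) hv' h3, ?_⟩
  refine ov_of_pd hκ ?_ ?_ ?_
  · simp only [hν]
    exact hκ1
  · simp only [hv', hθ]
    exact hκ2
  · rw [Real.coe_toNNReal c hc.le]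
    exact hκc

lemma finite_of_not_le {φ : G → ℂ} (hφ : φ ∈ TSt G) {g : G} (hg : Trans g) {c : ℝ} (hc : 0 < c)
    {ν : Measure UnitAddCircle} [IsProbabilityMeasure ν]
    (hν : ∀ n : ℤ, ∫ x, (fourier n x : ℂ) ∂ν = φ (g ^ n))
    (h : ¬ ((c.toNNReal : ℝ≥0∞) • (volume : Measure UnitAddCircle) ≤ ν)) :
    {z : ℂ | ‖z‖ = 1 ∧ ∃ ψ ∈ TSt G, ∃ h : G, Trans h ∧ Common c φ g ψ h z}.Finite := by
  have hinv : MeasurePreserving (fun x : UnitAddCircle => 2 • x) ν ν ∧
      MeasurePreserving (fun x : UnitAddCircle => 3 • x) ν ν := by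
    obtain ⟨ν', hν', hv', h2, h3⟩ := meas hs2 hs3 ht hG hφ.1 hφ.2.1 hφ.2.2 hg
    have e : ν' = ν := Pool.Agent.R202.ext_fourier fun n => by rw [hν, hv']
    rw [← e]
    exact ⟨mp_nsmul (c := fun m => φ (g ^ m)) hv' h2, mp_nsmul (c := fun m => φ (g ^ m)) hv' h3⟩
  have hfin := Pool.Agent.R477.XQ.main_fin (p := 2) (q := 3) le_rfl (by norm_num) irr23
    (a := 1) (b := 1) one_ne_zero one_ne_zero hinv.1 hinv.2 h
  refine (hfin.image fun θ => (fourier 1 θ : ℂ)).subset ?_
  rintro z ⟨hz, ψ, hψ, h', hh', hC⟩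
  obtain ⟨θ, hθ⟩ := exists_theta hz
  refine ⟨θ, ov_of_common hs2 hs3 ht hG hψ hh' hc hθ hν hC, ?_⟩
  simp only
  rw [hθ, zpow_one]

end

/-- the regular trace -/
lemma regular_mem (G : Subgroup (Equiv.Perm ℚ)) :
    Set.indicator ({1} : Set G) (fun _ => (1 : ℂ)) ∈ TSt G := by
  classical
  refine ⟨by simp, fun g h => ?_, fun s c => ?_⟩
  · have : h * g * h⁻¹ = 1 ↔ g = 1 := by
      constructor
      · intro e
        have : g = h⁻¹ * (h * g * h⁻¹) * h := by group
        rw [this, e]; group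
      · rintro rfl; group
    by_cases hg : g = 1
    · rw [Set.indicator_of_mem (by simpa using hg), Set.indicator_of_mem (by simpa using this.2 hg)]
    · rw [Set.indicator_of_notMem (by simpa using hg),
        Set.indicator_of_notMem (by simpa using fun e => hg (this.1 e))]
  · have h1 : ∀ i ∈ s, ∑ j ∈ s, star (c j) * c i *
        Set.indicator ({1} : Set G) (fun _ => (1 : ℂ)) (j⁻¹ * i) = star (c i) * c i := by
      intro i hi
      rw [Finset.sum_eq_single i]
      · simp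
      · intro j _ hj
        rw [Set.indicator_of_notMem, mul_zero]
        simp only [Set.mem_singleton_iff, inv_mul_eq_one]
        exact hj
      · intro h; exact absurd hi h
    rw [Finset.sum_congr rfl h1]
    exact Finset.sum_nonneg fun i _ => star_mul_self_nonneg (c i)

lemma pow_ne {G : Subgroup (Equiv.Perm ℚ)} {g : G} (hg1 : g ≠ 1) (hg : Trans g) (n : ℤ) :
    g ^ n = 1 ↔ n = 0 := by
  obtain ⟨q, hq⟩ := hg
  have hq0 : q ≠ 0 := by
    rintro rfl
    apply hg1
    apply Subtype.ext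
    apply Equiv.ext
    intro x
    rw [hq]
    simp
  constructor
  · intro h
    have h2 := zpow_apply hq n 0
    rw [h] at h2
    have h3 : (0 : ℚ) = 0 + (n : ℚ) * q := h2
    rw [zero_add] at h3
    rcases mul_eq_zero.1 h3.symm with h4 | h4
    · exact_mod_cast h4
    · exact absurd h4 hq0
  · rintro rfl; simp

/-- the common part with the regular trace -/
lemma common_of_pd {G : Subgroup (Equiv.Perm ℚ)} {φ : G → ℂ} (hφ : φ ∈ TSt G) {g : G} (hg1 : g ≠ 1)
    (hg : Trans g) {c : ℝ} (hc : 0 < c)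
    (h : PosDef (fun n => φ (g ^ n) - if n = 0 then (c : ℂ) else 0)) (z : ℂ) :
    Common c φ g (Set.indicator ({1} : Set G) (fun _ => (1 : ℂ))) g z := by
  refine ⟨fun n => if n = 0 then (c : ℂ) else 0, pd_delta hc.le, h, ?_, by simp⟩
  have hc1 : c ≤ 1 := by
    have h0 := h.zero
    simp only [zpow_zero, if_true, hφ.1] at h0
    have h2 : (0 : ℂ) ≤ ((1 - c : ℝ) : ℂ) := by
      push_cast; exact h0
    have h3 : 0 ≤ 1 - c := by exact_mod_cast h2
    linarith
  have e : (fun n : ℤ => z ^ n * Set.indicator ({1} : Set G) (fun _ => (1 : ℂ)) (g ^ n) -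
      if n = 0 then (c : ℂ) else 0) = fun n => if n = 0 then ((1 - c : ℝ) : ℂ) else 0 := by
    funext n
    by_cases hn : n = 0
    · subst hn
      simp
    · rw [Set.indicator_of_notMem (by simpa using fun e => hn ((pow_ne hg1 hg n).1 e)), mul_zero,
        if_neg hn, if_neg hn, sub_zero]
  rw [e]
  exact pd_delta (by linarith)

/-- **Rotated spectral measures.**  Call the part common to the spectral measure of `g` in `φ` and to
the rotation by `z` of the spectral measure of `h` in `ψ` large if its mass is at least `c`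
(`Common c φ g ψ h z`).
(1) For every tracial state `φ` of `C*(G)` (extreme or not), every translation `g ≠ 1` and `c > 0`
there are only finitely many `z` of modulus one for which it is large for SOME tracial state `ψ` and
some translation `h`, if and only if the sequence `φ (g ^ n) - c δ_{n,0}` is not positive definite.
(2) For an extreme tracial state `φ` the following are equivalent:
* `φ` is not the regular trace;
* for all translations `g ≠ 1`, all tracial states `ψ`, all translations `h` and all `z` of modulus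
  one which are not roots of unity there is no common part;
* for all translations `g ≠ 1` and `c > 0` there are only finitely many `z` as in (1);
* for some translation `g ≠ 1` there are only finitely many `z` for which the common part is
  everything (`c = 1`) for some `ψ` and `h`. -/
theorem result (s2 s3 t : Equiv.Perm ℚ) (hs2 : ∀ x : ℚ, s2 x = 2 * x) (hs3 : ∀ x : ℚ, s3 x = 3 * x)
    (ht : ∀ x : ℚ, t x = x + 1) (G : Subgroup (Equiv.Perm ℚ))
    (hG : G = Subgroup.closure {s2, s3, t}) :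
    (∀ φ ∈ TSt G, ∀ g : G, g ≠ 1 → Trans g → ∀ c : ℝ, 0 < c →
      ({z : ℂ | ‖z‖ = 1 ∧ ∃ ψ ∈ TSt G, ∃ h : G, Trans h ∧ Common c φ g ψ h z}.Finite ↔
        ¬ PosDef (fun n => φ (g ^ n) - if n = 0 then (c : ℂ) else 0))) ∧
    (∀ φ ∈ Set.extremePoints ℝ (TSt G), List.TFAE [
      φ ≠ Set.indicator ({1} : Set G) (fun _ => (1 : ℂ)),
      ∀ g : G, g ≠ 1 → Trans g → ∀ ψ ∈ TSt G, ∀ h : G, Trans h → ∀ z : ℂ, ‖z‖ = 1 →
        (∀ n : ℕ, 1 ≤ n → z ^ n ≠ 1) → ∀ c : ℝ, 0 < c → ¬ Common c φ g ψ h z,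
      ∀ g : G, g ≠ 1 → Trans g → ∀ c : ℝ, 0 < c →
        {z : ℂ | ‖z‖ = 1 ∧ ∃ ψ ∈ TSt G, ∃ h : G, Trans h ∧ Common c φ g ψ h z}.Finite,
      ∃ g : G, g ≠ 1 ∧ Trans g ∧
        {z : ℂ | ‖z‖ = 1 ∧ ∃ ψ ∈ TSt G, ∃ h : G, Trans h ∧ Common 1 φ g ψ h z}.Finite]) := by
  constructor
  · intro φ hφ g hg1 hg c hc
    constructor
    · intro hfin hpd
      refine circle_infinite (hfin.subset fun z hz => ⟨hz, _, regular_mem G, g, hg, ?_⟩)
      exact common_of_pd hφ hg1 hg hc hpd z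
    · intro hpd
      obtain ⟨ν, hν, hv, -, -⟩ := meas hs2 hs3 ht hG hφ.1 hφ.2.1 hφ.2.2 hg
      refine finite_of_not_le hs2 hs3 ht hG hφ hg hc hv fun hle => hpd ?_
      obtain ⟨ρ, hρ, -, hρc⟩ := pd_of_le hle
      have h1 := pd_of_meas ρ
      simp only [hρc, hv] at h1
      have e : ((c.toNNReal : ℝ≥0) : ℂ) = (c : ℂ) := by
        have : ((c.toNNReal : ℝ≥0) : ℝ) = c := Real.coe_toNNReal c hc.le
        calc ((c.toNNReal : ℝ≥0) : ℂ) = (((c.toNNReal : ℝ≥0) : ℝ) : ℂ) := rfl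
          _ = (c : ℂ) := by rw [this]
      rwa [e] at h1
  · intro φ hext
    have hφ := hext.1
    -- the regular trace has common parts for all `z`
    have hreg : φ = Set.indicator ({1} : Set G) (fun _ => (1 : ℂ)) → ∀ g : G, g ≠ 1 → Trans g →
        ∀ z : ℂ, Common 1 φ g (Set.indicator ({1} : Set G) (fun _ => (1 : ℂ))) g z := by
      intro h g hg1 hg z
      refine common_of_pd hφ hg1 hg one_pos ?_ z
      have e : (fun n : ℤ => φ (g ^ n) - if n = 0 then ((1 : ℝ) : ℂ) else 0) = fun n =>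
          if n = 0 then ((0 : ℝ) : ℂ) else 0 := by
        funext n
        rw [h]
        by_cases hn : n = 0
        · subst hn; simp
        · rw [Set.indicator_of_notMem (by simpa using fun e => hn ((pow_ne hg1 hg n).1 e)),
            if_neg hn, if_neg hn, sub_zero]
      rw [e]
      exact pd_delta le_rfl
    obtain ⟨g0, hg01, hg0⟩ : ∃ g : G, g ≠ 1 ∧ Trans g := by
      refine ⟨⟨t, by rw [hG]; exact Subgroup.subset_closure (by simp)⟩, ?_, 1, ht⟩
      intro h
      have h2 := congrArg (fun g : G => (g : Equiv.Perm ℚ) 0) h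
      simp [ht] at h2
    tfae_have 1 → 2 := by
      intro hne g hg1 hg ψ hψ h hh z hz hroot c hc hC
      obtain ⟨ν, hν, hv, m2, m3⟩ := meas hs2 hs3 ht hG hφ.1 hφ.2.1 hφ.2.2 hg
      obtain ⟨θ, hθ⟩ := exists_theta hz
      obtain ⟨ν', hν', i2, i3, hOv⟩ := ov_of_common hs2 hs3 ht hG hψ hh hc hθ hv hC
      have h1 := (Pool.Agent.R477.XQ.irr_case (p := 2) (q := 3) le_rfl (by norm_num) irr23
        (mp_nsmul (c := fun m => φ (g ^ m)) hv m2) (mp_nsmul (c := fun m => φ (g ^ m)) hv m3)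
        i2 i3 one_ne_zero one_ne_zero (not_fin_of_not_root hroot hθ) hOv).1
      exact hne (regular_of_le hs2 hs3 ht hG hext hg1 hg hv (Real.toNNReal_pos.2 hc) h1)
    tfae_have 1 → 3 := by
      intro hne g hg1 hg c hc
      obtain ⟨ν, hν, hv, -, -⟩ := meas hs2 hs3 ht hG hφ.1 hφ.2.1 hφ.2.2 hg
      exact finite_of_not_le hs2 hs3 ht hG hφ hg hc hv fun hle =>
        hne (regular_of_le hs2 hs3 ht hG hext hg1 hg hv (Real.toNNReal_pos.2 hc) hle)
    tfae_have 3 → 4 := fun h => ⟨g0, hg01, hg0, h g0 hg01 hg0 1 one_pos⟩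
    tfae_have 4 → 1 := by
      rintro ⟨g, hg1, hg, hfin⟩ h
      exact circle_infinite (hfin.subset fun z hz =>
        ⟨hz, _, regular_mem G, g, hg, hreg h g hg1 hg z⟩)
    tfae_have 2 → 1 := by
      intro h2 h
      exact h2 g0 hg01 hg0 _ (regular_mem G) g0 hg0 _ (norm_one' _) not_root 1 one_pos
        (hreg h g0 hg01 hg0 _)
    tfae_finish

end Pool.Agent.Results.MP_81910f_an.RotatedSpectra
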