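import Pool.Agent.K7.H79.TR.Scale
import Pool.Agent.Results.MP_81910f_an.ManyLargeValues
import Pool.Agent.Results.MP_e27144_an.NoMassAtOneScale

/-!
# Ergodic averages of the tracial states of `C*(ℤ² ⋉ ℤ[1/6])` at polynomially related scales

Let `G` be the group generated by `x ↦ 2 x`, `x ↦ 3 x`, `x ↦ x + 1` on `ℚ`.  For all tracial states
`φ`, all translations `g` and all `y ∈ G` the averages of `φ (y g ^ n)` over `n < N` and over `n < N'`
are close to each other if `N ≤ N' ≤ N ^ A`, as soon as `N ≥ N₀` where `N₀` depends on `A` and the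
error only.
-/

set_option autoImplicit false

open MeasureTheory Filter Topology Finset
open scoped ComplexOrder

namespace Pool.Agent.Results.MP_81910f_an.ScaleStability

open Pool.Agent.W763.Tr Pool.Agent.TH654.FC
open Pool.Agent.K7.H79.TR
open Pool.Agent.Results.MP_81910f_an.ManyLargeValues (meas)

/-- the statement for measures -/
lemma stab (A : ℕ) {ε : ℝ} (hε : 0 < ε) : ∃ N₀ : ℕ, 1 ≤ N₀ ∧ ∀ N N' : ℕ, N₀ ≤ N → N ≤ N' →
    (N' : ℝ) ≤ (N : ℝ) ^ A → ∀ ν : Measure UnitAddCircle, IsProbabilityMeasure ν →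
      MeasurePreserving (fun x : UnitAddCircle => 2 • x) ν ν →
      MeasurePreserving (fun x : UnitAddCircle => 3 • x) ν ν →
        ∫ x, ‖Dir N x - Dir N' x‖ ^ 2 ∂ν ≤ ε ^ 2 := by
  set R : ℝ := max 1 (8 * Real.pi / ε) with hR
  have hR1 : 1 ≤ R := le_max_left _ _
  have hR0 : 0 < R := by linarith
  have hRε : 4 * Real.pi / R ≤ ε / 2 := by
    rw [div_le_iff₀ hR0]
    have h1 : 8 * Real.pi / ε ≤ R := le_max_right _ _
    rw [div_le_iff₀ hε] at h1
    linarith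
  obtain ⟨T₀, hT₀⟩ := (Pool.Agent.Results.MP_e27144_an.NoMassAtOneScale.result 2 3 le_rfl
    (by norm_num) (by norm_num)).2.1 (A + 1 : ℝ) (ε ^ 2 / 8) (by
      have : (0 : ℝ) ≤ A := Nat.cast_nonneg _
      linarith) (by positivity)
  obtain ⟨N₀, hN₀⟩ := exists_nat_ge (max (R ^ (A + 2)) (R * Real.exp T₀))
  refine ⟨max N₀ 1, le_max_right _ _, fun N N' hN hNN hNA ν hν h2 h3 => ?_⟩
  have hN1 : 1 ≤ N := (le_max_right _ _).trans hN
  have hN0 : (0 : ℝ) < N := by exact_mod_cast hN1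
  have hN0' : (0 : ℝ) < N' := by exact_mod_cast hN1.trans hNN
  have hNN₀ : (N₀ : ℝ) ≤ N := by exact_mod_cast (le_max_left _ _).trans hN
  have ha : R ^ (A + 2) ≤ N := ((le_max_left _ _).trans hN₀).trans hNN₀
  have hb : R * Real.exp T₀ ≤ N := ((le_max_right _ _).trans hN₀).trans hNN₀
  set Tt : ℝ := Real.log (N / R) with hTt
  have hT : T₀ ≤ Tt := by
    rw [hTt, Real.le_log_iff_exp_le (by positivity), le_div_iff₀ hR0]
    linarith
  have h4 := hT₀ Tt hT ν hν h2 h3 1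
  have h5 := int_diff ν hN1 hNN hR1
  have e1 : Real.exp (-Tt) = R / N := by
    rw [Real.exp_neg, hTt, Real.exp_log (by positivity), inv_div]
  have e2 : Real.exp (-((A + 1 : ℝ) * Tt)) ≤ 1 / (R * N') := by
    have e3 : Real.exp (-((A + 1 : ℝ) * Tt)) = (R / N) ^ (A + 1) := by
      rw [← e1, ← Real.exp_nat_mul]
      congr 1
      push_cast
      ring
    rw [e3, div_pow, div_le_div_iff₀ (by positivity) (by positivity), one_mul]
    calc R ^ (A + 1) * (R * N') = R ^ (A + 2) * N' := by ring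
      _ ≤ N * N ^ A := mul_le_mul ha hNA hN0'.le hN0.le
      _ = (N : ℝ) ^ (A + 1) := by ring
  have h6 : ν.real {x | 1 / (R * N') ≤ ‖x‖ ∧ ‖x‖ ≤ R / N} ≤ ε ^ 2 / 8 := by
    refine le_trans ?_ h4
    refine measureReal_mono ?_
    rintro x ⟨hx1, hx2⟩
    refine ⟨?_, ?_⟩
    · rw [one_smul]
      exact e2.trans hx1
    · rw [one_smul, e1]
      exact hx2
  have h7 : (4 * Real.pi / R) ^ 2 ≤ (ε / 2) ^ 2 := by
    have := Real.pi_pos
    exact pow_le_pow_left₀ (by positivity) hRε 2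
  nlinarith

/-- **Ergodic averages of the tracial states at polynomially related scales.**  Let `T` be the set of
the tracial states of `C*(G)`.
(1) For all `A` and `ε > 0` there is `N₀` such that for all `N, N'` with `N₀ ≤ N ≤ N' ≤ N ^ A`, ALL
tracial states `φ` (extreme or not), all translations `g` and all `y ∈ G` the averages of
`φ (y g ^ n)` over `n < N` and over `n < N'` differ by at most `ε`.
(2) For all `A` and `ε > 0` there is `M₀` such that for all `M ≥ M₀`, all `N` with `M ≤ N ^ A`, all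
tracial states `φ`, all translations `g` with `φ (g ^ M) = 1` and all `y ∈ G` the average of
`φ (y g ^ n)` over `n < N` differs from the average over the full period `n < M` by at most `ε`. -/
theorem result (s2 s3 t : Equiv.Perm ℚ) (hs2 : ∀ x : ℚ, s2 x = 2 * x) (hs3 : ∀ x : ℚ, s3 x = 3 * x)
    (ht : ∀ x : ℚ, t x = x + 1) (G : Subgroup (Equiv.Perm ℚ))
    (hG : G = Subgroup.closure {s2, s3, t}) (T : Set (G → ℂ))
    (hT : T = {ψ : G → ℂ | ψ 1 = 1 ∧ (∀ g h : G, ψ (h * g * h⁻¹) = ψ g) ∧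
        ∀ (s : Finset G) (c : G → ℂ), 0 ≤ ∑ i ∈ s, ∑ j ∈ s, star (c j) * c i * ψ (j⁻¹ * i)}) :
    (∀ (A : ℕ) (ε : ℝ), 0 < ε → ∃ N₀ : ℕ, ∀ N N' : ℕ, N₀ ≤ N → N ≤ N' →
      (N' : ℝ) ≤ (N : ℝ) ^ A → ∀ φ ∈ T, ∀ g : G,
        (∃ q : ℚ, ∀ x : ℚ, (g : Equiv.Perm ℚ) x = x + q) → ∀ y : G,
          ‖(N : ℂ)⁻¹ * ∑ n ∈ range N, φ (y * g ^ n) -
            (N' : ℂ)⁻¹ * ∑ n ∈ range N', φ (y * g ^ n)‖ ≤ ε) ∧
    (∀ (A : ℕ) (ε : ℝ), 0 < ε → ∃ M₀ : ℕ, ∀ M N : ℕ, M₀ ≤ M → (M : ℝ) ≤ (N : ℝ) ^ A →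
      ∀ φ ∈ T, ∀ g : G, (∃ q : ℚ, ∀ x : ℚ, (g : Equiv.Perm ℚ) x = x + q) → φ (g ^ M) = 1 →
        ∀ y : G, ‖(N : ℂ)⁻¹ * ∑ n ∈ range N, φ (y * g ^ n) -
            (M : ℂ)⁻¹ * ∑ n ∈ range M, φ (y * g ^ n)‖ ≤ ε) := by
  subst hT
  have part1 : ∀ (A : ℕ) (ε : ℝ), 0 < ε → ∃ N₀ : ℕ, 1 ≤ N₀ ∧ ∀ N N' : ℕ, N₀ ≤ N → N ≤ N' →
      (N' : ℝ) ≤ (N : ℝ) ^ A → ∀ φ ∈ {ψ : G → ℂ | ψ 1 = 1 ∧ (∀ g h : G, ψ (h * g * h⁻¹) = ψ g) ∧
        ∀ (s : Finset G) (c : G → ℂ), 0 ≤ ∑ i ∈ s, ∑ j ∈ s, star (c j) * c i * ψ (j⁻¹ * i)},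
        ∀ g : G, (∃ q : ℚ, ∀ x : ℚ, (g : Equiv.Perm ℚ) x = x + q) → ∀ y : G,
          ‖(N : ℂ)⁻¹ * ∑ n ∈ range N, φ (y * g ^ n) -
            (N' : ℂ)⁻¹ * ∑ n ∈ range N', φ (y * g ^ n)‖ ≤ ε := by
    intro A ε hε
    obtain ⟨N₀, h1, hN₀⟩ := stab A hε
    refine ⟨N₀, h1, fun N N' hN hNN hNA φ hφ g hg y => ?_⟩
    obtain ⟨ν, hν, hv, h2, h3⟩ := meas hs2 hs3 ht hG hφ.1 hφ.2.1 hφ.2.2 hg
    have h4 := hN₀ N N' hN hNN hNA ν hν (mp_nsmul (c := fun m => φ (g ^ m)) hv h2)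
      (mp_nsmul (c := fun m => φ (g ^ m)) hv h3)
    have h5 := (avg_diff hφ.2.2 hφ.1 hv y hNN).trans h4
    exact le_of_sq_le_sq h5 hε.le
  refine ⟨fun A ε hε => ?_, fun A ε hε => ?_⟩
  · obtain ⟨N₀, -, h⟩ := part1 A ε hε
    exact ⟨N₀, h⟩
  · -- the periodic case
    obtain ⟨N₀, hN₀1, h1⟩ := part1 (2 * A) (ε / 2) (by positivity)
    obtain ⟨K, hK⟩ := exists_nat_ge (max ((N₀ : ℝ) ^ A + 1) (4 / ε))
    refine ⟨K + 1, fun M N hM hMN φ hφ g hg hgM y => ?_⟩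
    have hM1 : 1 ≤ M := by omega
    have hM0 : (0 : ℝ) < M := by exact_mod_cast hM1
    have hMc : (M : ℂ) ≠ 0 := by exact_mod_cast hM0.ne'
    have hKM : (K : ℝ) ≤ M := by exact_mod_cast (by omega : K ≤ M)
    have hM2 : (N₀ : ℝ) ^ A + 1 ≤ M := ((le_max_left _ _).trans hK).trans hKM
    have hM3 : 4 / ε ≤ M := ((le_max_right _ _).trans hK).trans hKM
    obtain ⟨ν, hν, hv, -, -⟩ := meas hs2 hs3 ht hG hφ.1 hφ.2.1 hφ.2.2 hg
    have hbd : ∀ n : ℕ, ‖φ (y * g ^ n)‖ ≤ 1 := by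
      intro n
      have h3 := cs hφ.2.2 hφ.1 hv y {n} (fun _ => 1)
      simp only [Finset.sum_singleton, one_mul, norm_f, one_pow, integral_const, probReal_univ,
        smul_eq_mul, mul_one] at h3
      exact le_of_sq_le_sq (by rwa [one_pow]) zero_le_one
    have hper : ∀ n : ℕ, φ (y * g ^ (n + M)) = φ (y * g ^ n) := by
      intro n
      rw [pow_add, ← mul_assoc]
      exact PD.mul_of_eq_one hφ.2.2 hφ.1 hgM _
    -- long averages
    have hsum : ∀ q r : ℕ, ∑ n ∈ range (q * M + r), φ (y * g ^ n) =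
        q * ∑ n ∈ range M, φ (y * g ^ n) + ∑ n ∈ range r, φ (y * g ^ n) := by
      have hp : ∀ q n : ℕ, φ (y * g ^ (q * M + n)) = φ (y * g ^ n) := by
        intro q n
        induction q with
        | zero => simp
        | succ q ih =>
          rw [← ih, ← hper (q * M + n)]
          congr 3
          ring
      intro q r
      rw [Finset.sum_range_add]
      congr 1
      · induction q with
        | zero => simp
        | succ q ih =>
          rw [add_mul, one_mul, Finset.sum_range_add, ih]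
          simp_rw [hp]
          push_cast
          ring
      · exact Finset.sum_congr rfl fun n _ => hp q n
    have hlong : ∀ L : ℕ, M ≤ L → ‖(L : ℂ)⁻¹ * ∑ n ∈ range L, φ (y * g ^ n) -
        (M : ℂ)⁻¹ * ∑ n ∈ range M, φ (y * g ^ n)‖ ≤ 2 * M / L := by
      intro L hL
      have hL1 : 1 ≤ L := hM1.trans hL
      have hL0 : (0 : ℝ) < L := by exact_mod_cast hL1
      have hLc : (L : ℂ) ≠ 0 := by exact_mod_cast hL0.ne'
      have e := Nat.div_add_mod' L M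
      set q := L / M with hq
      set r := L % M with hr
      have hrM : r < M := Nat.mod_lt _ (by omega)
      have hs := hsum q r
      rw [e] at hs
      have hLe : (L : ℂ) = q * M + r := by
        conv_lhs => rw [← e]
        push_cast
        ring
      have h5 : (L : ℂ)⁻¹ * ∑ n ∈ range L, φ (y * g ^ n) -
          (M : ℂ)⁻¹ * ∑ n ∈ range M, φ (y * g ^ n) =
          (L : ℂ)⁻¹ * (∑ n ∈ range r, φ (y * g ^ n) -
            (r : ℂ) * ((M : ℂ)⁻¹ * ∑ n ∈ range M, φ (y * g ^ n))) := by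
        rw [hs]
        field_simp
        rw [hLe]
        ring
      have hSM : ‖(M : ℂ)⁻¹ * ∑ n ∈ range M, φ (y * g ^ n)‖ ≤ 1 := by
        rw [norm_mul, norm_inv, Complex.norm_natCast, inv_mul_le_iff₀ hM0, mul_one]
        refine (norm_sum_le _ _).trans ((sum_le_sum fun n _ => hbd n).trans ?_)
        simp
      have hSr : ‖∑ n ∈ range r, φ (y * g ^ n)‖ ≤ r := by
        refine (norm_sum_le _ _).trans ((sum_le_sum fun n _ => hbd n).trans ?_)
        simp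
      rw [h5, norm_mul, norm_inv, Complex.norm_natCast, div_eq_inv_mul]
      refine mul_le_mul_of_nonneg_left ?_ (by positivity)
      have hrM' : (r : ℝ) ≤ M := by exact_mod_cast hrM.le
      calc _ ≤ ‖∑ n ∈ range r, φ (y * g ^ n)‖ +
            ‖(r : ℂ) * ((M : ℂ)⁻¹ * ∑ n ∈ range M, φ (y * g ^ n))‖ := norm_sub_le _ _
        _ ≤ r + r * 1 := by
            refine add_le_add hSr ?_
            rw [norm_mul, Complex.norm_natCast]
            exact mul_le_mul_of_nonneg_left hSM (Nat.cast_nonneg _)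
        _ ≤ 2 * M := by linarith
    have hsmall : ∀ L : ℕ, M ^ 2 ≤ L → 2 * (M : ℝ) / L ≤ ε / 2 := by
      intro L hL
      have hL' : (M : ℝ) ^ 2 ≤ L := by exact_mod_cast hL
      have hL0 : (0 : ℝ) < L := lt_of_lt_of_le (by positivity) hL'
      rw [div_le_iff₀ hL0]
      rw [div_le_iff₀ hε] at hM3
      nlinarith
    have hMM : M ≤ M ^ 2 := by nlinarith
    rcases le_total N (M ^ 2) with hN | hN
    · have hNN₀ : N₀ ≤ N := by
        by_contra hcon
        push Not at hcon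
        have h6 : (N : ℝ) ^ A ≤ (N₀ : ℝ) ^ A :=
          pow_le_pow_left₀ (Nat.cast_nonneg _) (by exact_mod_cast hcon.le) _
        linarith
      have h7 := h1 N (M ^ 2) hNN₀ hN (by
        push_cast
        rw [mul_comm 2 A, pow_mul]
        exact pow_le_pow_left₀ hM0.le hMN 2) φ hφ g hg y
      have h8 := (hlong (M ^ 2) hMM).trans (hsmall (M ^ 2) le_rfl)
      calc _ ≤ ‖(N : ℂ)⁻¹ * ∑ n ∈ range N, φ (y * g ^ n) -
              ((M ^ 2 : ℕ) : ℂ)⁻¹ * ∑ n ∈ range (M ^ 2), φ (y * g ^ n)‖ +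
            ‖((M ^ 2 : ℕ) : ℂ)⁻¹ * ∑ n ∈ range (M ^ 2), φ (y * g ^ n) -
              (M : ℂ)⁻¹ * ∑ n ∈ range M, φ (y * g ^ n)‖ := norm_sub_le_norm_sub_add_norm_sub _ _ _
        _ ≤ ε / 2 + ε / 2 := add_le_add h7 h8
        _ = ε := by ring
    · have h8 := (hlong N (hMM.trans hN)).trans (hsmall N hN)
      linarith

end Pool.Agent.Results.MP_81910f_an.ScaleStability
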